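import Pool.Agent.KS6_52.RG.Orbit

set_option autoImplicit false

/-! # Invariant sets with small energy, modular inverses, Fibonacci numbers -/

namespace Pool.Agent.KS6_52.RG

open Finset Filter Matrix
open Pool.Agent.W147.PS (ff)
open Pool.Agent.Q20.RG
open Pool.Agent.KS6_51.INV (S inv_norm)

lemma energy_pos {p : ℕ} [Fact p.Prime] {J : Type} [Fintype J] [DecidableEq J]
    {Ω : Finset (J → ZMod p)} (h : Ω.Nonempty) : 0 < energy Ω := by
  obtain ⟨v, hv⟩ := h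
  exact card_pos.2 ⟨((v, v), (v, v)), by simp [hv]⟩

/-- **invariant sets** -/
theorem invariant (r : ℕ) (hr : 1 ≤ r) (ε : ℝ) (hε : 0 < ε) (hε1 : ε ≤ 1) :
    ∃ κ : ℝ, 0 < κ ∧ ∃ p₀ : ℕ, ∀ p : ℕ, p₀ ≤ p → ∀ [Fact p.Prime],
    ∀ (Γ : Set (Matrix (Fin r) (Fin r) (ZMod p) × (Fin r → ZMod p))) (T : ℝ),
    (∀ H : Finset (Fin r → ZMod p), (∃ h ∈ H, h ≠ 0) → (∀ γ ∈ Γ, ∀ h ∈ H, h ᵥ* γ.1 ∈ H) → T ≤ H.card) →
    ∀ Ω : Finset (Fin r → ZMod p), (∀ γ ∈ Γ, Set.BijOn (fun v => γ.1 *ᵥ v + γ.2) Ω Ω) →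
    ∀ A N : Fin r → ℕ, (∀ j, A j + N j ≤ p) → (∀ j, (p : ℝ) ^ ε ≤ N j) →
      (p : ℝ) ^ (5 * (r : ℝ) + ε) * energy Ω ≤ ((∏ j, (N j : ℝ)) * Ω.card) ^ 4 * T →
      ∃ G : Finset (Fin r → ℕ),
        (∏ j, (N j : ℝ)) * Ω.card * (p : ℝ) ^ (-(r : ℝ) - ε) ≤ G.card ∧
        ∀ z ∈ G, (∀ j, A j ≤ z j ∧ z j < A j + N j) ∧ (fun j => (z j : ZMod p)) ∈ Ω ∧
          ∀ j, ∀ q : ℕ, q.Prime → κ * ff p < |(q : ℝ) - z j| := by
  classical
  have : Nonempty (Fin r) := ⟨⟨0, by omega⟩⟩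
  obtain ⟨κ, hκ, p₀, h⟩ := genE (Fin r) (ε / 4) (by positivity) (by linarith)
  refine ⟨κ, hκ, p₀, ?_⟩
  intro p hp0 _ Γ T hT Ω hΩ A N hAN hN hW
  have hpp : p.Prime := Fact.out
  have hp : (0 : ℝ) < p := by exact_mod_cast hpp.pos
  have hp1 : (1 : ℝ) ≤ p := by exact_mod_cast hpp.one_lt.le
  have hmono : ∀ x y : ℝ, x ≤ y → (p : ℝ) ^ x ≤ (p : ℝ) ^ y := fun x y h =>
    Real.rpow_le_rpow_of_exponent_le hp1 h
  rcases Ω.eq_empty_or_nonempty with rfl | hne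
  · exact ⟨∅, by simp, by simp⟩
  have hT0 : 0 < T := by
    by_contra hcon
    have h1 : ((∏ j, (N j : ℝ)) * Ω.card) ^ 4 * T ≤ 0 :=
      mul_nonpos_of_nonneg_of_nonpos (by positivity) (not_lt.1 hcon)
    have h3 : (0 : ℝ) < energy Ω := by exact_mod_cast energy_pos hne
    have h2 : (0 : ℝ) < (p : ℝ) ^ (5 * (r : ℝ) + ε) * energy Ω := by positivity
    linarith
  obtain ⟨G, hG1, hG2⟩ := h p hp0 Ω T (energy Ω) hT0 le_rfl (by
      intro h0 hh0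
      refine ⟨univ.filter (fun g => ‖S Ω g‖ = ‖S Ω h0‖), fun g hg => (mem_filter.1 hg).2, ?_⟩
      apply hT
      · exact ⟨h0, by simp, hh0⟩
      · intro γ hγ g hg
        rw [mem_filter] at hg ⊢
        refine ⟨mem_univ _, ?_⟩
        rw [← hg.2]
        symm
        refine inv_norm Ω (fun v => γ.1 *ᵥ v + γ.2) (hΩ γ hγ).mapsTo (hΩ γ hγ).injOn g (g ᵥ* γ.1)
          (g ⬝ᵥ γ.2) fun v => ?_
        rw [dotProduct_add, dotProduct_mulVec]) A N hAN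
    (fun j => (hmono _ _ (by linarith)).trans (hN j)) (by
      rw [Fintype.card_fin]
      refine le_trans (le_of_eq ?_) hW
      congr 2
      ring)
  refine ⟨G, le_trans ?_ hG1, hG2⟩
  rw [Fintype.card_fin]
  exact mul_le_mul_of_nonneg_left (hmono _ _ (by linarith)) (by positivity)

/-- **elements of a subgroup and their inverses** -/
theorem inverses (ε : ℝ) (hε : 0 < ε) (hε1 : ε ≤ 1) :
    ∃ κ : ℝ, 0 < κ ∧ ∃ p₀ : ℕ, ∀ p : ℕ, p₀ ≤ p → ∀ [Fact p.Prime],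
    ∀ (H : Subgroup (ZMod p)ˣ) (a b : (ZMod p)ˣ),
    ∀ A N : Fin 2 → ℕ, (∀ j, A j + N j ≤ p) → (∀ j, (p : ℝ) ^ ε ≤ N j) →
      (p : ℝ) ^ (10 + ε) ≤ (∏ j, (N j : ℝ)) ^ 4 * (Nat.card H : ℝ) ^ 3 →
      ∃ G : Finset (ZMod p)ˣ,
        (∏ j, (N j : ℝ)) * Nat.card H * (p : ℝ) ^ (-2 - ε) ≤ G.card ∧
        ∀ u ∈ G, u ∈ H ∧
          (A 0 ≤ ((a * u : (ZMod p)ˣ) : ZMod p).val ∧ ((a * u : (ZMod p)ˣ) : ZMod p).val < A 0 + N 0) ∧
          (A 1 ≤ ((b * u⁻¹ : (ZMod p)ˣ) : ZMod p).val ∧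
            ((b * u⁻¹ : (ZMod p)ˣ) : ZMod p).val < A 1 + N 1) ∧
          (∀ q : ℕ, q.Prime → κ * ff p < |(q : ℝ) - ((a * u : (ZMod p)ˣ) : ZMod p).val|) ∧
          ∀ q : ℕ, q.Prime → κ * ff p < |(q : ℝ) - ((b * u⁻¹ : (ZMod p)ˣ) : ZMod p).val| := by
  classical
  obtain ⟨κ, hκ, p₀, h⟩ := sl2 ε hε hε1
  refine ⟨κ, hκ, max p₀ 8, ?_⟩
  intro p hp0 _ H a b A N hAN hN hW
  have hpp : p.Prime := Fact.out
  have hp : (0 : ℝ) < p := by exact_mod_cast hpp.pos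
  have hp1 : (1 : ℝ) ≤ p := by exact_mod_cast hpp.one_lt.le
  obtain ⟨g, hg⟩ := IsCyclic.exists_generator (α := H)
  have hcard : orderOf (g : (ZMod p)ˣ) = Nat.card H := by
    rw [Subgroup.orderOf_coe, ← orderOf_eq_card_of_forall_mem_zpowers hg]
  set γ : (ZMod p)ˣ := (g : (ZMod p)ˣ) with hγ
  have hN8 : (∏ j, (N j : ℝ)) ^ 4 ≤ (p : ℝ) ^ 8 := by
    have h1 : ∏ j, (N j : ℝ) ≤ ∏ _j : Fin 2, (p : ℝ) :=
      prod_le_prod (fun _ _ => by positivity) fun j _ => by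
        have := hAN j
        exact_mod_cast (by omega : N j ≤ p)
    rw [prod_const, card_univ, Fintype.card_fin] at h1
    calc (∏ j, (N j : ℝ)) ^ 4 ≤ ((p : ℝ) ^ 2) ^ 4 := pow_le_pow_left₀ (by positivity) h1 4
      _ = (p : ℝ) ^ 8 := by ring
  have hbig : 2 < Nat.card H := by
    by_contra hcon
    have h1 : (Nat.card H : ℝ) ≤ 2 := by exact_mod_cast not_lt.1 hcon
    have h2 : (∏ j, (N j : ℝ)) ^ 4 * (Nat.card H : ℝ) ^ 3 ≤ (p : ℝ) ^ 8 * 2 ^ 3 := by gcongr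
    have h3 : (p : ℝ) ^ (10 : ℝ) ≤ (p : ℝ) ^ (10 + ε) :=
      Real.rpow_le_rpow_of_exponent_le hp1 (by linarith)
    have h4 : (p : ℝ) ^ (10 : ℝ) = (p : ℝ) ^ 10 := by
      rw [← Real.rpow_natCast]; norm_num
    have h5 : (8 : ℝ) ≤ p := by exact_mod_cast (le_max_right _ _).trans hp0
    have h6 : (p : ℝ) ^ 8 * 2 ^ 3 < (p : ℝ) ^ 10 := by
      have h7 : (0 : ℝ) < (p : ℝ) ^ 8 := by positivity
      have h8 : (p : ℝ) ^ 10 = (p : ℝ) ^ 8 * (p : ℝ) ^ 2 := by ring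
      rw [h8]
      apply mul_lt_mul_of_pos_left _ h7
      nlinarith
    have h9 := (h3.trans hW).trans h2
    rw [h4] at h9
    exact absurd h9 (not_le.2 h6)
  have hsq : γ ^ 2 ≠ 1 := by
    intro h1
    have h2 := Nat.le_of_dvd (by norm_num) (orderOf_dvd_of_pow_eq_one h1)
    rw [hcard] at h2
    omega
  have hsq' : ((γ : ZMod p)) ^ 2 ≠ 1 := by
    intro h1
    apply hsq
    ext
    push_cast
    exact h1
  have hγi : (γ : ZMod p) * ((γ⁻¹ : (ZMod p)ˣ) : ZMod p) = 1 := by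
    rw [← Units.val_mul, mul_inv_cancel, Units.val_one]
  set M : Matrix (Fin 2) (Fin 2) (ZMod p) := diagonal ![(γ : ZMod p), ((γ⁻¹ : (ZMod p)ˣ) : ZMod p)] with hM
  have hdet : M.det = 1 := by
    rw [hM, det_diagonal, Fin.prod_univ_two]
    exact hγi
  have htr : M.trace ^ 2 ≠ 4 := by
    rw [hM, trace_fin_two]
    simp only [diagonal_apply_eq, cons_val_zero, cons_val_one]
    intro h1
    apply hsq'
    have h2 : ((γ : ZMod p) - ((γ⁻¹ : (ZMod p)ˣ) : ZMod p)) ^ 2 = 0 := by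
      linear_combination h1 - 4 * hγi
    have h3 : (γ : ZMod p) - ((γ⁻¹ : (ZMod p)ˣ) : ZMod p) = 0 := by
      exact pow_eq_zero_iff (two_ne_zero) |>.1 h2
    linear_combination (γ : ZMod p) * h3 + hγi
  have hpow : ∀ k, M ^ k = diagonal ![((γ ^ k : (ZMod p)ˣ) : ZMod p), (((γ ^ k)⁻¹ : (ZMod p)ˣ) : ZMod p)] := by
    intro k
    rw [hM, diagonal_pow]
    congr 1
    funext i
    fin_cases i
    · change ((γ : ZMod p)) ^ k = ((γ ^ k : (ZMod p)ˣ) : ZMod p)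
      rw [Units.val_pow_eq_pow_val]
    · change (((γ⁻¹ : (ZMod p)ˣ) : ZMod p)) ^ k = (((γ ^ k)⁻¹ : (ZMod p)ˣ) : ZMod p)
      rw [← Units.val_pow_eq_pow_val, inv_pow]
  have hord : orderOf M = Nat.card H := by
    rw [← hcard]
    apply orderOf_eq_orderOf_iff.2
    intro k
    rw [hpow]
    constructor
    · intro h1
      have h2 := congrFun (congrFun h1 0) 0
      rw [diagonal_apply_eq, one_apply_eq] at h2
      ext
      exact h2
    · intro h1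
      rw [h1]
      ext i j
      fin_cases i <;> fin_cases j <;> simp
  set x : ℕ → Fin 2 → ZMod p := fun k => ![((a * γ ^ k : (ZMod p)ˣ) : ZMod p),
    ((b * (γ ^ k)⁻¹ : (ZMod p)ˣ) : ZMod p)] with hx
  have hx1 : ∀ k, x (k + 1) = M *ᵥ x k := by
    intro k
    funext i
    rw [hM, mulVec_diagonal]
    fin_cases i
    · simp only [hx, Fin.zero_eta, cons_val_zero]
      push_cast
      rw [pow_succ]
      ring
    · change ((b * (γ ^ (k + 1))⁻¹ : (ZMod p)ˣ) : ZMod p) =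
        ((γ⁻¹ : (ZMod p)ˣ) : ZMod p) * ((b * (γ ^ k)⁻¹ : (ZMod p)ˣ) : ZMod p)
      rw [← Units.val_mul]
      congr 1
      rw [pow_succ, mul_inv, ← mul_assoc, mul_comm (b * (γ ^ k)⁻¹) γ⁻¹]
  have hx01 : x 0 0 * x 1 1 ≠ x 0 1 * x 1 0 := by
    simp only [hx, cons_val_zero, cons_val_one, pow_zero, pow_one, mul_one, inv_one]
    rw [← Units.val_mul, ← Units.val_mul]
    intro h1
    have h2 := Units.ext h1
    apply hsq
    have h3 : γ⁻¹ = γ := by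
      have h4 : a * b * γ⁻¹ = a * b * γ := by
        calc a * b * γ⁻¹ = a * (b * γ⁻¹) := mul_assoc _ _ _
          _ = b * (a * γ) := h2
          _ = a * b * γ := by rw [← mul_assoc, mul_comm b a]
      exact mul_left_cancel h4
    rw [sq]
    nth_rewrite 1 [← h3]
    exact inv_mul_cancel _
  obtain ⟨G, hG1, hG2⟩ := h p ((le_max_left _ _).trans hp0) M hdet htr x hx1 hx01 A N hAN hN (by
    rw [hord]; exact hW)
  rw [hord] at hG1
  refine ⟨G.image fun k => γ ^ k, ?_, ?_⟩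
  · rw [card_image_of_injOn]
    · exact hG1
    · intro i hi j hj hij
      have h1 := (hG2 i hi).1
      have h2 := (hG2 j hj).1
      rw [hord, ← hcard] at h1 h2
      exact pow_injOn_Iio_orderOf h1 h2 hij
  · intro u hu
    obtain ⟨k, hk, rfl⟩ := mem_image.1 hu
    obtain ⟨-, h2⟩ := hG2 k hk
    exact ⟨H.pow_mem g.2 k, (h2 0).1, (h2 1).1, (h2 0).2, (h2 1).2⟩

/-- the matrix of the Fibonacci numbers of even index -/
def fibM (p : ℕ) : Matrix (Fin 2) (Fin 2) (ZMod p) := !![1, 1; 1, 2]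

/-- **Fibonacci numbers** -/
theorem fibonacci (ε : ℝ) (hε : 0 < ε) (hε1 : ε ≤ 1) :
    ∃ κ : ℝ, 0 < κ ∧ ∃ p₀ : ℕ, ∀ p : ℕ, p₀ ≤ p → p.Prime →
    ∀ π : ℕ, IsLeast {m : ℕ | 0 < m ∧ p ∣ Nat.fib m ∧ Nat.fib (m + 1) ≡ 1 [MOD p]} π →
    ∀ A N : Fin 2 → ℕ, (∀ j, A j + N j ≤ p) → (∀ j, (p : ℝ) ^ ε ≤ N j) →
      (p : ℝ) ^ (10 + ε) ≤ (∏ j, (N j : ℝ)) ^ 4 * (π : ℝ) ^ 3 →
      ∃ G : Finset ℕ,
        (∏ j, (N j : ℝ)) * π * (p : ℝ) ^ (-2 - ε) ≤ G.card ∧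
        ∀ n ∈ G, n < 2 * π ∧
          (A 0 ≤ Nat.fib n % p ∧ Nat.fib n % p < A 0 + N 0) ∧
          (A 1 ≤ Nat.fib (n + 1) % p ∧ Nat.fib (n + 1) % p < A 1 + N 1) ∧
          (∀ q : ℕ, q.Prime → κ * ff p < |(q : ℝ) - (Nat.fib n % p : ℕ)|) ∧
          ∀ q : ℕ, q.Prime → κ * ff p < |(q : ℝ) - (Nat.fib (n + 1) % p : ℕ)| := by
  classical
  obtain ⟨κ, hκ, p₀, h⟩ := sl2 (ε / 2) (by positivity) (by linarith)
  obtain ⟨p₁, hp₁⟩ : ∃ p₁ : ℕ, ∀ p : ℕ, p₁ ≤ p → 8 ≤ (p : ℝ) ^ (ε / 2) :=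
    eventually_atTop.1 (((tendsto_rpow_atTop (show 0 < ε / 2 by positivity)).comp
      tendsto_natCast_atTop_atTop).eventually_ge_atTop 8)
  refine ⟨κ, hκ, max (max p₀ p₁) 7, ?_⟩
  intro p hp0 hpp π hπ A N hAN hN hW
  have : Fact p.Prime := ⟨hpp⟩
  have hp7 : 7 ≤ p := (le_max_right _ _).trans hp0
  have hpp0 : p₀ ≤ p := (le_max_left _ _).trans ((le_max_left _ _).trans hp0)
  have hpp1 : p₁ ≤ p := (le_max_right _ _).trans ((le_max_left _ _).trans hp0)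
  have hp : (0 : ℝ) < p := by exact_mod_cast hpp.pos
  have hp1 : (1 : ℝ) ≤ p := by exact_mod_cast hpp.one_lt.le
  have hmono : ∀ x y : ℝ, x ≤ y → (p : ℝ) ^ x ≤ (p : ℝ) ^ y := fun x y h =>
    Real.rpow_le_rpow_of_exponent_le hp1 h
  have hdet : (fibM p).det = 1 := by
    rw [fibM, det_fin_two_of]; ring
  have htr : (fibM p).trace ^ 2 ≠ 4 := by
    rw [fibM, trace_fin_two_of]
    intro h1
    have h2 : ((5 : ℕ) : ZMod p) = 0 := by
      push_cast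
      linear_combination h1
    rw [ZMod.natCast_eq_zero_iff] at h2
    have := Nat.le_of_dvd (by norm_num) h2
    omega
  set x : ℕ → Fin 2 → ZMod p := fun k => ![(Nat.fib (2 * k) : ZMod p), (Nat.fib (2 * k + 1) : ZMod p)]
    with hx
  have hx1 : ∀ k, x (k + 1) = fibM p *ᵥ x k := by
    intro k
    have f1 : Nat.fib (2 * (k + 1)) = Nat.fib (2 * k) + Nat.fib (2 * k + 1) := by
      rw [show 2 * (k + 1) = 2 * k + 2 by ring, Nat.fib_add_two]
    have f2 : Nat.fib (2 * (k + 1) + 1) = Nat.fib (2 * k + 1) + Nat.fib (2 * (k + 1)) := by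
      rw [show 2 * (k + 1) + 1 = (2 * k + 1) + 2 by ring, Nat.fib_add_two]
      rfl
    funext i
    fin_cases i
    · simp only [hx, fibM, Fin.zero_eta, cons_val_zero, mulVec, dotProduct, Fin.sum_univ_two, of_apply,
        cons_val_one]
      rw [f1]
      push_cast
      ring
    · simp only [hx, fibM, Fin.mk_one, cons_val_zero, mulVec, dotProduct, Fin.sum_univ_two, of_apply,
        cons_val_one]
      rw [f2, f1]
      push_cast
      ring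
  have hx01 : x 0 0 * x 1 1 ≠ x 0 1 * x 1 0 := by
    simp [hx]
  set t : ℕ := orderOf (fibM p) with ht
  -- `π ≤ 2 t`
  have hMt : (fibM p) ^ t = 1 := pow_orderOf_eq_one _
  have hfin : 0 < t := by
    have hu : IsUnit (fibM p) := by
      rw [isUnit_iff_isUnit_det, hdet]
      exact isUnit_one
    obtain ⟨u, hu⟩ := hu
    rw [ht, ← hu, orderOf_units]
    exact orderOf_pos u
  have hπ2 : π ≤ 2 * t := by
    apply hπ.2
    have h1 := pow_x hx1 0 t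
    rw [zero_add, hMt, one_mulVec] at h1
    have h2 := congrFun h1 0
    have h3 := congrFun h1 1
    simp only [hx, cons_val_zero, cons_val_one, mul_zero, Nat.fib_zero, Nat.cast_zero, zero_add,
      Nat.fib_one, Nat.cast_one] at h2 h3
    refine ⟨by omega, (ZMod.natCast_eq_zero_iff _ _).1 h2, ?_⟩
    exact (ZMod.natCast_eq_natCast_iff _ _ _).1 (by rw [h3, Nat.cast_one])
  -- `t ≤ π`
  have hper : ∀ n : ℕ, (Nat.fib (n + π) : ZMod p) = Nat.fib n ∧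
      (Nat.fib (n + 1 + π) : ZMod p) = Nat.fib (n + 1) := by
    intro n
    induction n with
    | zero =>
      obtain ⟨h1, h2, h3⟩ := hπ.1
      constructor
      · rw [zero_add, Nat.fib_zero, Nat.cast_zero]
        exact (ZMod.natCast_eq_zero_iff _ _).2 h2
      · rw [zero_add, Nat.fib_one, add_comm 1 π]
        exact (ZMod.natCast_eq_natCast_iff _ _ _).2 h3
    | succ n ih =>
      refine ⟨ih.2, ?_⟩
      rw [show n + 1 + 1 + π = (n + π) + 2 by ring, Nat.fib_add_two, Nat.cast_add, ih.1,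
        show n + π + 1 = n + 1 + π by ring, ih.2, show n + 1 + 1 = n + 2 by ring, Nat.fib_add_two,
        Nat.cast_add]
  have hπt : t ≤ π := by
    apply Nat.le_of_dvd hπ.1.1
    apply orderOf_dvd_of_pow_eq_one
    -- the orbit of `x 0 = (0, 1)` and of `x 1 = (1, 2)` is periodic
    have h1 : ∀ k, x (k + π) = x k := by
      intro k
      have h2 := hper (2 * k + π)
      have h3 := hper (2 * k)
      funext i
      fin_cases i
      · simp only [hx, Fin.zero_eta, cons_val_zero]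
        rw [show 2 * (k + π) = 2 * k + π + π by ring, h2.1, h3.1]
      · simp only [hx, Fin.mk_one, cons_val_one]
        rw [show 2 * (k + π) + 1 = 2 * k + π + 1 + π by ring, h2.2,
          show 2 * k + π + 1 = 2 * k + 1 + π by ring, h3.2]
    have hD := disc_ne hdet htr
    have h2 := pow_x hx1 0 π
    rw [h1] at h2
    refine one_of_col (M := fibM p) (by rw [det_pow, hdet, one_pow]) (by rw [← pow_succ', ← pow_succ])
      hD (h := x 0) ?_ h2.symm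
    intro h3
    have := congrFun h3 1
    simp [hx] at this
  have hπR : (π : ℝ) ≤ 2 * t := by exact_mod_cast hπ2
  obtain ⟨G, hG1, hG2⟩ := h p hpp0 (fibM p) hdet htr x hx1 hx01 A N hAN
    (fun j => (hmono _ _ (by linarith)).trans (hN j)) (by
    have h1 : (p : ℝ) ^ (10 + ε / 2) * (p : ℝ) ^ (ε / 2) = (p : ℝ) ^ (10 + ε) := by
      rw [← Real.rpow_add hp]; congr 1; ring
    have h2 : (p : ℝ) ^ (10 + ε / 2) * 8 ≤ (∏ j, (N j : ℝ)) ^ 4 * (2 * t) ^ 3 := by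
      calc (p : ℝ) ^ (10 + ε / 2) * 8 ≤ (p : ℝ) ^ (10 + ε / 2) * (p : ℝ) ^ (ε / 2) :=
            mul_le_mul_of_nonneg_left (hp₁ p hpp1) (by positivity)
        _ ≤ (∏ j, (N j : ℝ)) ^ 4 * (π : ℝ) ^ 3 := h1 ▸ hW
        _ ≤ _ := by gcongr
    nlinarith)
  refine ⟨G.image fun k => 2 * k, ?_, ?_⟩
  · rw [card_image_of_injOn (fun i _ j _ hij => by simpa using hij)]
    refine le_trans ?_ hG1
    have h3 : (p : ℝ) ^ (-2 - ε / 2) = (p : ℝ) ^ (-2 - ε) * (p : ℝ) ^ (ε / 2) := by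
      rw [← Real.rpow_add hp]; congr 1; ring
    have h4 := hp₁ p hpp1
    have h5 : (0 : ℝ) < (p : ℝ) ^ (-2 - ε) := by positivity
    have h6 : (0 : ℝ) ≤ ∏ j, (N j : ℝ) := by positivity
    have ht0 : (0 : ℝ) ≤ t := by positivity
    calc (∏ j, (N j : ℝ)) * π * (p : ℝ) ^ (-2 - ε) ≤ (∏ j, (N j : ℝ)) * (2 * t) * (p : ℝ) ^ (-2 - ε) := by
          gcongr
      _ = (∏ j, (N j : ℝ)) * t * ((p : ℝ) ^ (-2 - ε) * 2) := by ring
      _ ≤ (∏ j, (N j : ℝ)) * t * ((p : ℝ) ^ (-2 - ε) * (p : ℝ) ^ (ε / 2)) := by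
          gcongr
          linarith
      _ = _ := by rw [h3]
  · intro n hn
    obtain ⟨k, hk, rfl⟩ := mem_image.1 hn
    obtain ⟨h1, h2⟩ := hG2 k hk
    have e0 : (x k 0).val = Nat.fib (2 * k) % p := by
      simp only [hx, cons_val_zero]
      rw [ZMod.val_natCast]
    have e1 : (x k 1).val = Nat.fib (2 * k + 1) % p := by
      change ((Nat.fib (2 * k + 1) : ZMod p)).val = _
      rw [ZMod.val_natCast]
    have g0 := h2 0
    have g1 := h2 1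
    rw [e0] at g0
    rw [e1] at g1
    exact ⟨by omega, g0.1, g1.1, g0.2, g1.2⟩

end Pool.Agent.KS6_52.RG
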