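import Mathlib

set_option autoImplicit false

/-! # Sums of two points of a conic -/

namespace Pool.Agent.KS6_52.RG

variable {F : Type} [Field F]

/-- the polar form vanishes only for parallel vectors -/
lemma par {A B C x y d0 d1 t0 t1 : F} (hD : B ^ 2 - 4 * A * C ≠ 0) (hs : x ≠ 0 ∨ y ≠ 0)
    (h1 : (2 * A * x + B * y) * d0 + (B * x + 2 * C * y) * d1 = 0)
    (h2 : (2 * A * x + B * y) * t0 + (B * x + 2 * C * y) * t1 = 0) :
    d0 * t1 - d1 * t0 = 0 := by
  by_contra hcon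
  have e1 : (2 * A * x + B * y) * (d0 * t1 - d1 * t0) = 0 := by
    linear_combination t1 * h1 - d1 * h2
  have e2 : (B * x + 2 * C * y) * (d0 * t1 - d1 * t0) = 0 := by
    linear_combination (-t0) * h1 + d0 * h2
  have f1 : 2 * A * x + B * y = 0 := (mul_eq_zero.1 e1).resolve_right hcon
  have f2 : B * x + 2 * C * y = 0 := (mul_eq_zero.1 e2).resolve_right hcon
  have g1 : (B ^ 2 - 4 * A * C) * x = 0 := by linear_combination (-2 * C) * f1 + B * f2
  have g2 : (B ^ 2 - 4 * A * C) * y = 0 := by linear_combination B * f1 + (-2 * A) * f2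
  rcases hs with hs | hs
  · exact hs ((mul_eq_zero.1 g1).resolve_left hD)
  · exact hs ((mul_eq_zero.1 g2).resolve_left hD)

/-- parallel vectors -/
lemma par' {d0 d1 t0 t1 : F} (ht : t0 ≠ 0 ∨ t1 ≠ 0) (h : d0 * t1 - d1 * t0 = 0) :
    ∃ l : F, d0 = l * t0 ∧ d1 = l * t1 := by
  rcases ht with ht | ht
  · refine ⟨d0 / t0, by field_simp, ?_⟩
    field_simp
    linear_combination -h
  · refine ⟨d1 / t1, ?_, by field_simp⟩
    field_simp
    linear_combination h

/-- no isotropic vector is orthogonal to an anisotropic one -/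
lemma iso {A B C z0 z1 t0 t1 : F} (hD : B ^ 2 - 4 * A * C ≠ 0)
    (hz : A * z0 ^ 2 + B * z0 * z1 + C * z1 ^ 2 ≠ 0)
    (ht : A * t0 ^ 2 + B * t0 * t1 + C * t1 ^ 2 = 0)
    (hzt : (2 * A * t0 + B * t1) * z0 + (B * t0 + 2 * C * t1) * z1 = 0) : t0 = 0 ∧ t1 = 0 := by
  by_contra hcon
  have ht' : t0 ≠ 0 ∨ t1 ≠ 0 := by
    by_contra h
    push Not at h
    exact hcon h
  have h1 := par hD ht' hzt (t0 := t0) (t1 := t1) (by linear_combination 2 * ht)
  obtain ⟨l, e0, e1⟩ := par' ht' h1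
  apply hz
  rw [e0, e1]
  linear_combination l ^ 2 * ht

/-- **two points of a conic are determined by their sum** -/
lemma conic {A B C c u0 u1 v0 v1 w0 w1 z0 z1 : F} (hD : B ^ 2 - 4 * A * C ≠ 0) (hc : c ≠ 0)
    (hu : A * u0 ^ 2 + B * u0 * u1 + C * u1 ^ 2 = c) (hv : A * v0 ^ 2 + B * v0 * v1 + C * v1 ^ 2 = c)
    (hw : A * w0 ^ 2 + B * w0 * w1 + C * w1 ^ 2 = c) (hz : A * z0 ^ 2 + B * z0 * z1 + C * z1 ^ 2 = c)
    (h0 : u0 + v0 = w0 + z0) (h1 : u1 + v1 = w1 + z1) :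
    (u0 + v0 = 0 ∧ u1 + v1 = 0) ∨ (u0 = w0 ∧ u1 = w1) ∨ (u0 = z0 ∧ u1 = z1) := by
  obtain ⟨d0, rfl⟩ : ∃ d0, u0 = w0 + d0 := ⟨u0 - w0, by ring⟩
  obtain ⟨d1, rfl⟩ : ∃ d1, u1 = w1 + d1 := ⟨u1 - w1, by ring⟩
  obtain rfl : v0 = z0 - d0 := by linear_combination h0
  obtain rfl : v1 = z1 - d1 := by linear_combination h1
  obtain ⟨t0, rfl⟩ : ∃ t0, w0 = z0 - t0 := ⟨z0 - w0, by ring⟩
  obtain ⟨t1, rfl⟩ : ∃ t1, w1 = z1 - t1 := ⟨z1 - w1, by ring⟩
  by_cases hs : (z0 - t0 + z0 = 0 ∧ z1 - t1 + z1 = 0)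
  · left
    exact ⟨by linear_combination hs.1, by linear_combination hs.2⟩
  right
  have hs' : z0 - t0 + z0 ≠ 0 ∨ z1 - t1 + z1 ≠ 0 := by
    by_contra h
    push Not at h
    exact hs h
  have k1 : (2 * A * (z0 - t0 + z0) + B * (z1 - t1 + z1)) * d0 +
      (B * (z0 - t0 + z0) + 2 * C * (z1 - t1 + z1)) * d1 = 0 := by
    linear_combination hu - hw - hv + hz
  have k2 : (2 * A * (z0 - t0 + z0) + B * (z1 - t1 + z1)) * t0 +
      (B * (z0 - t0 + z0) + 2 * C * (z1 - t1 + z1)) * t1 = 0 := by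
    linear_combination 2 * hz - 2 * hw
  have hzc : A * z0 ^ 2 + B * z0 * z1 + C * z1 ^ 2 ≠ 0 := by rw [hz]; exact hc
  -- `q(δ) = polar(z, δ)` and `q(t) = polar(z, t)`
  have m1 : A * d0 ^ 2 + B * d0 * d1 + C * d1 ^ 2 =
      (2 * A * d0 + B * d1) * z0 + (B * d0 + 2 * C * d1) * z1 := by
    linear_combination hv - hz
  have m2 : A * t0 ^ 2 + B * t0 * t1 + C * t1 ^ 2 =
      (2 * A * t0 + B * t1) * z0 + (B * t0 + 2 * C * t1) * z1 := by
    linear_combination hw - hz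
  by_cases ht : t0 = 0 ∧ t1 = 0
  · obtain ⟨rfl, rfl⟩ := ht
    left
    have h2 : (2 : F) * ((2 * A * d0 + B * d1) * z0 + (B * d0 + 2 * C * d1) * z1) = 0 := by
      linear_combination k1
    by_cases h20 : (2 : F) = 0
    · -- characteristic two
      have h40 : (4 : F) = 0 := by linear_combination 2 * h20
      have k3 : B * z1 * d0 + B * z0 * d1 = 0 ∨ True := Or.inr trivial
      exfalso
      -- `s = 2 z = 0` in characteristic two
      apply hs
      constructor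
      · linear_combination z0 * h20
      · linear_combination z1 * h20
    · have h3 := (mul_eq_zero.1 h2).resolve_left h20
      obtain ⟨e0, e1⟩ := iso hD hzc (m1.trans h3) h3
      rw [e0, e1]
      simp
  · have ht' : t0 ≠ 0 ∨ t1 ≠ 0 := by
      by_contra h
      push Not at h
      exact ht h
    obtain ⟨l, e0, e1⟩ := par' ht' (par hD hs' k1 k2)
    have hqt : A * t0 ^ 2 + B * t0 * t1 + C * t1 ^ 2 ≠ 0 := by
      intro h
      exact ht (iso hD hzc h (m2.symm.trans h))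
    have hl : l * (l - 1) * (A * t0 ^ 2 + B * t0 * t1 + C * t1 ^ 2) = 0 := by
      rw [e0, e1] at m1
      linear_combination m1 - l * m2
    rcases mul_eq_zero.1 ((mul_eq_zero.1 hl).resolve_right hqt) with h | h
    · left
      rw [e0, e1, h]
      simp
    · right
      have hl1 : l = 1 := by linear_combination h
      rw [e0, e1, hl1]
      constructor <;> ring

end Pool.Agent.KS6_52.RG
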