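import Pool.Agent.KS6_51.INV.Core

set_option autoImplicit false

/-! # Sets of vectors with small additive energy over a prime field -/

namespace Pool.Agent.KS6_52.RG

open Finset Filter Matrix
open Pool.Agent.W147.PS (ff)
open Pool.Agent.Q20.RG
open Pool.Agent.KS6_51.INV (S orth norm_char)

variable {p : ℕ} [Fact p.Prime] {J : Type} [Fintype J] [DecidableEq J]

/-- the number of solutions of `u + v = w + z` in `Ω` -/
def energy (Ω : Finset (J → ZMod p)) : ℕ :=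
  (((Ω ×ˢ Ω) ×ˢ (Ω ×ˢ Ω)).filter fun q => q.1.1 + q.1.2 = q.2.1 + q.2.2).card

/-- Parseval's identity for families -/
lemma parseval2 {ι : Type} (s : Finset ι) (f : ι → J → ZMod p) :
    ∑ h : J → ZMod p, ‖∑ i ∈ s, (ZMod.stdAddChar (h ⬝ᵥ f i) : ℂ)‖ ^ 2 =
      (p : ℝ) ^ Fintype.card J * ((s ×ˢ s).filter fun q => f q.1 = f q.2).card := by
  classical
  have h1 : ∀ h : J → ZMod p, ((‖∑ i ∈ s, (ZMod.stdAddChar (h ⬝ᵥ f i) : ℂ)‖ ^ 2 : ℝ) : ℂ) =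
      ∑ q ∈ s ×ˢ s, (ZMod.stdAddChar (h ⬝ᵥ (f q.1 - f q.2)) : ℂ) := by
    intro h
    push_cast
    rw [← Complex.mul_conj', map_sum, sum_mul_sum, sum_product]
    refine sum_congr rfl fun v _ => sum_congr rfl fun w _ => ?_
    rw [dotProduct_sub, sub_eq_add_neg, AddChar.map_add_eq_mul, AddChar.map_neg_eq_conj]
  have h2 : ((∑ h : J → ZMod p, ‖∑ i ∈ s, (ZMod.stdAddChar (h ⬝ᵥ f i) : ℂ)‖ ^ 2 : ℝ) : ℂ) =
      (((p : ℝ) ^ Fintype.card J * ((s ×ˢ s).filter fun q => f q.1 = f q.2).card : ℝ) : ℂ) := by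
    rw [Complex.ofReal_sum, sum_congr rfl (fun h _ => h1 h), sum_comm]
    have h3 : ∀ q ∈ s ×ˢ s, ∑ h : J → ZMod p, (ZMod.stdAddChar (h ⬝ᵥ (f q.1 - f q.2)) : ℂ) =
        if f q.1 = f q.2 then (p : ℂ) ^ Fintype.card J else 0 := by
      intro q _
      split_ifs with h4
      · rw [h4, sub_self]
        simp [ZMod.card]
      · exact orth _ (sub_ne_zero.2 h4)
    rw [sum_congr rfl h3, ← sum_filter, sum_const, nsmul_eq_mul]
    push_cast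
    ring
  exact_mod_cast h2

/-- the fourth moment -/
lemma fourth (Ω : Finset (J → ZMod p)) :
    ∑ h : J → ZMod p, ‖S Ω h‖ ^ 4 = (p : ℝ) ^ Fintype.card J * energy Ω := by
  have h1 := parseval2 (Ω ×ˢ Ω) (fun q => q.1 + q.2)
  rw [energy, ← h1]
  refine sum_congr rfl fun h _ => ?_
  have h2 : ∑ i ∈ Ω ×ˢ Ω, (ZMod.stdAddChar (h ⬝ᵥ (i.1 + i.2)) : ℂ) = S Ω h ^ 2 := by
    rw [sq, S, sum_mul_sum, sum_product]
    refine sum_congr rfl fun v _ => sum_congr rfl fun w _ => ?_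
    rw [dotProduct_add, AddChar.map_add_eq_mul]
  rw [h2, norm_pow]
  ring

/-- many functionals with the same modulus of the exponential sum -/
lemma bound4 (Ω : Finset (J → ZMod p)) (h : J → ZMod p) (H : Finset (J → ZMod p))
    (hH : ∀ g ∈ H, ‖S Ω g‖ = ‖S Ω h‖) (T : ℝ) (hT0 : 0 < T) (hT : T ≤ H.card) :
    ‖S Ω h‖ ^ 4 ≤ (p : ℝ) ^ Fintype.card J * energy Ω / T := by
  rw [le_div_iff₀ hT0, ← fourth Ω]
  calc ‖S Ω h‖ ^ 4 * T ≤ ‖S Ω h‖ ^ 4 * H.card := mul_le_mul_of_nonneg_left hT (by positivity)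
    _ = ∑ g ∈ H, ‖S Ω g‖ ^ 4 := by
        rw [sum_congr rfl (fun g hg => by rw [hH g hg]), sum_const, nsmul_eq_mul, mul_comm]
    _ ≤ _ := sum_le_sum_of_subset_of_nonneg (subset_univ _) (fun _ _ _ => by positivity)

/-- **families with small energy in terms of the modulus** -/
theorem genE (J : Type) [Fintype J] [DecidableEq J] [Nonempty J] (ε : ℝ) (hε : 0 < ε) (hε1 : ε ≤ 1) :
    ∃ κ : ℝ, 0 < κ ∧ ∃ p₀ : ℕ, ∀ p : ℕ, p₀ ≤ p → ∀ [Fact p.Prime],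
    ∀ (Ω : Finset (J → ZMod p)) (T E : ℝ), 0 < T → (energy Ω : ℝ) ≤ E →
    (∀ h : J → ZMod p, h ≠ 0 → ∃ H : Finset (J → ZMod p), (∀ g ∈ H, ‖S Ω g‖ = ‖S Ω h‖) ∧ T ≤ H.card) →
    ∀ A N : J → ℕ, (∀ j, A j + N j ≤ p) → (∀ j, (p : ℝ) ^ ε ≤ N j) →
      (p : ℝ) ^ (5 * (Fintype.card J : ℝ) + 4 * ε) * E ≤ ((∏ j, (N j : ℝ)) * Ω.card) ^ 4 * T →
      ∃ G : Finset (J → ℕ),
        (∏ j, (N j : ℝ)) * Ω.card * (p : ℝ) ^ (-(Fintype.card J : ℝ) - ε) ≤ G.card ∧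
        ∀ z ∈ G, (∀ j, A j ≤ z j ∧ z j < A j + N j) ∧ (fun j => (z j : ZMod p)) ∈ Ω ∧
          ∀ j, ∀ q : ℕ, q.Prime → κ * ff p < |(q : ℝ) - z j| := by
  classical
  obtain ⟨κ, hκ, p₀, h⟩ := primeSet J ε hε hε1
  refine ⟨κ, hκ, max p₀ 2, ?_⟩
  intro p hp0 _ Ω T E hT hE hH A N hAN hN hW
  have hpp : p.Prime := Fact.out
  have hp : (0 : ℝ) < p := by exact_mod_cast hpp.pos
  set r : ℝ := (Fintype.card J : ℝ) with hr
  have hpr : (p : ℝ) ^ Fintype.card J = (p : ℝ) ^ r := by rw [hr, Real.rpow_natCast]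
  have hΩ0 : (0 : ℝ) ≤ Ω.card := Nat.cast_nonneg _
  have hPN : 0 ≤ ∏ j, (N j : ℝ) := by positivity
  have hE0 : 0 ≤ E := (Nat.cast_nonneg _).trans hE
  have hB0 : 0 ≤ (p : ℝ) ^ Fintype.card J * E / T := by positivity
  set B : ℝ := ((p : ℝ) ^ Fintype.card J * E / T) ^ (1 / 4 : ℝ) with hB
  have hB4 : B ^ 4 = (p : ℝ) ^ Fintype.card J * E / T := by
    rw [hB, ← Real.rpow_natCast, ← Real.rpow_mul hB0]
    norm_num
  have hBn : 0 ≤ B := Real.rpow_nonneg hB0 _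
  obtain ⟨G, hG1, hG2⟩ := h p ((le_max_left _ _).trans hp0) Ω B hBn (by
      intro h0 hh0
      obtain ⟨H, hH1, hH2⟩ := hH h0 hh0
      have h1 := bound4 Ω h0 H hH1 T hT hH2
      have h2 : ‖S Ω h0‖ ^ 4 ≤ B ^ 4 := by
        rw [hB4]
        refine h1.trans ?_
        gcongr
      exact le_of_pow_le_pow_left₀ (by norm_num) hBn h2) A N hAN hN (by
      apply le_of_pow_le_pow_left₀ (n := 4) (by norm_num) (by positivity)
      rw [mul_pow, mul_pow, hB4, hpr, div_mul_eq_mul_div, div_mul_eq_mul_div,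
        div_le_iff₀ hT]
      have e1 : (p : ℝ) ^ r * E * ((p : ℝ) ^ ε) ^ 4 * ((p : ℝ) ^ r) ^ 4 =
          (p : ℝ) ^ (5 * r + 4 * ε) * E := by
        have : (p : ℝ) ^ (5 * r + 4 * ε) = (p : ℝ) ^ r * ((p : ℝ) ^ ε) ^ 4 * ((p : ℝ) ^ r) ^ 4 := by
          rw [← Real.rpow_natCast ((p : ℝ) ^ ε), ← Real.rpow_natCast ((p : ℝ) ^ r), ← Real.rpow_mul hp.le,
            ← Real.rpow_mul hp.le, ← Real.rpow_add hp, ← Real.rpow_add hp]
          congr 1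
          push_cast
          ring
        rw [this]
        ring
      rw [e1]
      exact hW)
  refine ⟨G, le_trans (le_of_eq ?_) hG1, hG2⟩
  rw [hpr, div_mul_eq_mul_div, eq_div_iff (by positivity), sub_eq_add_neg, Real.rpow_add hp, Real.rpow_neg hp.le]
  field_simp

end Pool.Agent.KS6_52.RG
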