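import Pool.Agent.KS6_52.RG.Energy
import Pool.Agent.KS6_52.RG.Conic

set_option autoImplicit false

/-! # Orbits of matrices of determinant one modulo `p` -/

namespace Pool.Agent.KS6_52.RG

open Finset Filter Matrix
open Pool.Agent.W147.PS (ff)
open Pool.Agent.Q20.RG
open Pool.Agent.KS6_51.INV (S inv_norm)

section field

variable {F : Type} [Field F]

lemma one_of_det {M N : Matrix (Fin 2) (Fin 2) F} (hN : N.det = 1) (hc : M * N = N * M)
    (hM : (M 1 1 - M 0 0) ^ 2 - 4 * M 1 0 * (-M 0 1) ≠ 0) (hP : (N - 1).det = 0) : N = 1 := by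
  rw [det_fin_two] at hN hP
  have c00 := congrFun (congrFun hc 0) 0
  have c01 := congrFun (congrFun hc 0) 1
  have c10 := congrFun (congrFun hc 1) 0
  simp only [Matrix.mul_apply, Fin.sum_univ_two] at c00 c01 c10
  simp only [Matrix.sub_apply, one_apply_eq, ne_eq, Fin.isValue, zero_ne_one, not_false_eq_true,
    one_apply_ne, sub_zero, one_ne_zero] at hP
  have htr : N 0 0 + N 1 1 = 2 := by linear_combination hN - hP
  obtain ⟨x, hx⟩ : ∃ x, N 0 0 = 1 + x := ⟨N 0 0 - 1, by ring⟩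
  have hx' : N 1 1 = 1 - x := by linear_combination htr - hx
  set y := N 0 1
  set z := N 1 0
  rw [hx, hx'] at hN
  rw [hx] at c00
  rw [hx, hx'] at c01 c10
  have hyz : x ^ 2 = -(y * z) := by linear_combination -hN
  have e1 : (M 0 0 - M 1 1) * y = M 0 1 * (2 * x) := by linear_combination c01
  have e2 : M 1 0 * (2 * x) = (M 0 0 - M 1 1) * z := by linear_combination c10
  have e3 : M 0 1 * z = y * M 1 0 := by linear_combination c00
  have h1 : (y * z) * ((M 1 1 - M 0 0) ^ 2 - 4 * M 1 0 * (-M 0 1)) = 0 := by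
    linear_combination ((M 0 0 - M 1 1) * z) * e1 - (M 0 1 * (2 * x)) * e2 +
      (-4 * M 0 1 * M 1 0) * (-hyz)
  have h2 : y * z = 0 := (mul_eq_zero.1 h1).resolve_right hM
  have h3 : x = 0 := by
    have : x ^ 2 = 0 := by rw [hyz, h2, neg_zero]
    exact pow_eq_zero_iff (two_ne_zero) |>.1 this
  have hy : y = 0 := by
    by_contra hy
    have hz : z = 0 := (mul_eq_zero.1 h2).resolve_left hy
    have g1 : M 0 0 - M 1 1 = 0 := by
      have : (M 0 0 - M 1 1) * y = 0 := by rw [e1, h3]; ring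
      exact (mul_eq_zero.1 this).resolve_right hy
    have g2 : M 1 0 = 0 := by
      have : y * M 1 0 = 0 := by rw [← e3, hz, mul_zero]
      exact (mul_eq_zero.1 this).resolve_left hy
    apply hM
    rw [g2]
    linear_combination (M 0 0 - M 1 1) * g1
  have hz : z = 0 := by
    by_contra hz
    have g1 : M 0 0 - M 1 1 = 0 := by
      have : (M 0 0 - M 1 1) * z = 0 := by rw [← e2, h3]; ring
      exact (mul_eq_zero.1 this).resolve_right hz
    have g2 : M 0 1 = 0 := by
      have : M 0 1 * z = 0 := by rw [e3, hy, zero_mul]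
      exact (mul_eq_zero.1 this).resolve_right hz
    apply hM
    rw [g2]
    linear_combination (M 0 0 - M 1 1) * g1
  ext i j
  fin_cases i <;> fin_cases j
  · change N 0 0 = _
    rw [hx, h3]; simp
  · change N 0 1 = _
    rw [show N 0 1 = y from rfl, hy]; simp
  · change N 1 0 = _
    rw [show N 1 0 = z from rfl, hz]; simp
  · change N 1 1 = _
    rw [hx', h3]; simp

lemma one_of_row {M N : Matrix (Fin 2) (Fin 2) F} (hN : N.det = 1) (hc : M * N = N * M)
    (hM : (M 1 1 - M 0 0) ^ 2 - 4 * M 1 0 * (-M 0 1) ≠ 0) {h : Fin 2 → F} (hh : h ≠ 0)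
    (hf : h ᵥ* N = h) : N = 1 := by
  refine one_of_det hN hc hM (exists_vecMul_eq_zero_iff.1 ⟨h, hh, ?_⟩)
  rw [vecMul_sub, hf, vecMul_one, sub_self]

lemma one_of_col {M N : Matrix (Fin 2) (Fin 2) F} (hN : N.det = 1) (hc : M * N = N * M)
    (hM : (M 1 1 - M 0 0) ^ 2 - 4 * M 1 0 * (-M 0 1) ≠ 0) {h : Fin 2 → F} (hh : h ≠ 0)
    (hf : N *ᵥ h = h) : N = 1 := by
  refine one_of_det hN hc hM (exists_mulVec_eq_zero_iff.1 ⟨h, hh, ?_⟩)
  rw [sub_mulVec, hf, one_mulVec, sub_self]

end field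

section orbit

variable {p : ℕ} [Fact p.Prime]

/-- the energy of a set of points of a conic -/
lemma energy_le (Ω : Finset (Fin 2 → ZMod p)) {A B C c : ZMod p} (hD : B ^ 2 - 4 * A * C ≠ 0)
    (hc : c ≠ 0) (hΩ : ∀ u ∈ Ω, A * u 0 ^ 2 + B * u 0 * u 1 + C * u 1 ^ 2 = c) :
    energy Ω ≤ 3 * Ω.card ^ 2 := by
  classical
  have h1 : energy Ω = ∑ a ∈ Ω ×ˢ Ω, ((Ω ×ˢ Ω).filter fun b => a.1 + a.2 = b.1 + b.2).card := by
    rw [energy, card_filter, sum_product]
    exact sum_congr rfl fun a _ => (card_filter _ _).symm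
  have h2 : ∀ a ∈ Ω ×ˢ Ω, ((Ω ×ˢ Ω).filter fun b => a.1 + a.2 = b.1 + b.2).card ≤
      2 + if a.1 + a.2 = 0 then Ω.card else 0 := by
    rintro ⟨u, v⟩ ha
    rw [mem_product] at ha
    obtain ⟨hu, hv⟩ := ha
    simp only at hu hv ⊢
    split_ifs with h0
    · have : (Ω ×ˢ Ω).filter (fun b => u + v = b.1 + b.2) ⊆ Ω.image fun w => (w, -w) := by
        rintro ⟨w, z⟩ hb
        rw [mem_filter, mem_product] at hb
        obtain ⟨⟨hw, hz⟩, hb⟩ := hb
        rw [mem_image]
        refine ⟨w, hw, ?_⟩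
        rw [h0] at hb
        simp only at hb
        rw [Prod.mk.injEq]
        exact ⟨rfl, neg_eq_of_add_eq_zero_right hb.symm⟩
      calc _ ≤ _ := card_le_card this
        _ ≤ Ω.card := card_image_le
        _ ≤ _ := by omega
    · have : (Ω ×ˢ Ω).filter (fun b => u + v = b.1 + b.2) ⊆ {(u, v), (v, u)} := by
        rintro ⟨w, z⟩ hb
        rw [mem_filter, mem_product] at hb
        obtain ⟨⟨hw, hz⟩, hb⟩ := hb
        simp only at hw hz hb
        rw [mem_insert, mem_singleton, Prod.mk.injEq, Prod.mk.injEq]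
        rcases conic hD hc (hΩ u hu) (hΩ v hv) (hΩ w hw) (hΩ z hz) (congrFun hb 0) (congrFun hb 1)
          with ⟨e0, e1⟩ | ⟨e0, e1⟩ | ⟨e0, e1⟩
        · exfalso
          apply h0
          funext i
          fin_cases i
          · exact e0
          · exact e1
        · left
          have : w = u := by
            funext i
            fin_cases i
            · exact e0.symm
            · exact e1.symm
          subst this
          exact ⟨rfl, (add_left_cancel hb).symm⟩
        · right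
          have : z = u := by
            funext i
            fin_cases i
            · exact e0.symm
            · exact e1.symm
          subst this
          refine ⟨?_, rfl⟩
          rw [add_comm w z] at hb
          exact (add_left_cancel hb).symm
      calc _ ≤ _ := card_le_card this
        _ ≤ 2 := card_le_two
        _ ≤ _ := by omega
  have h3 : ((Ω ×ˢ Ω).filter fun a => a.1 + a.2 = 0).card ≤ Ω.card := by
    have : (Ω ×ˢ Ω).filter (fun b => b.1 + b.2 = 0) ⊆ Ω.image fun w => (w, -w) := by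
      rintro ⟨w, z⟩ hb
      rw [mem_filter, mem_product] at hb
      obtain ⟨⟨hw, hz⟩, hb⟩ := hb
      rw [mem_image]
      refine ⟨w, hw, ?_⟩
      simp only at hb
      rw [Prod.mk.injEq]
      exact ⟨rfl, neg_eq_of_add_eq_zero_right hb⟩
    exact (card_le_card this).trans card_image_le
  rw [h1]
  calc _ ≤ ∑ a ∈ Ω ×ˢ Ω, (2 + if a.1 + a.2 = 0 then Ω.card else 0) := sum_le_sum h2
    _ = 2 * Ω.card ^ 2 + ((Ω ×ˢ Ω).filter fun a => a.1 + a.2 = 0).card * Ω.card := by
        rw [sum_add_distrib, sum_const, ← sum_filter, sum_const, card_product, smul_eq_mul,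
          smul_eq_mul]
        ring
    _ ≤ 2 * Ω.card ^ 2 + Ω.card * Ω.card := by gcongr
    _ = 3 * Ω.card ^ 2 := by ring

variable {M : Matrix (Fin 2) (Fin 2) (ZMod p)} {x : ℕ → Fin 2 → ZMod p}

lemma disc_ne (hd : M.det = 1) (ht : M.trace ^ 2 ≠ 4) :
    (M 1 1 - M 0 0) ^ 2 - 4 * M 1 0 * (-M 0 1) ≠ 0 := by
  intro h
  apply ht
  rw [det_fin_two] at hd
  rw [trace_fin_two]
  linear_combination h + 4 * hd

lemma pow_x (hx : ∀ k, x (k + 1) = M *ᵥ x k) (i j : ℕ) : x (i + j) = M ^ j *ᵥ x i := by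
  induction j with
  | zero => simp
  | succ j ih => rw [← add_assoc, hx, ih, mulVec_mulVec, pow_succ']

lemma q_x (hd : M.det = 1) (hx : ∀ k, x (k + 1) = M *ᵥ x k) (k : ℕ) :
    M 1 0 * x k 0 ^ 2 + (M 1 1 - M 0 0) * x k 0 * x k 1 + (-M 0 1) * x k 1 ^ 2 =
      x 0 0 * x 1 1 - x 0 1 * x 1 0 := by
  induction k with
  | zero =>
    have e0 := congrFun (hx 0) 0
    have e1 := congrFun (hx 0) 1
    simp only [zero_add, mulVec, dotProduct, Fin.sum_univ_two] at e0 e1
    rw [e0, e1]
    ring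
  | succ k ih =>
    rw [← ih]
    have e0 := congrFun (hx k) 0
    have e1 := congrFun (hx k) 1
    simp only [mulVec, dotProduct, Fin.sum_univ_two] at e0 e1
    rw [e0, e1]
    rw [det_fin_two] at hd
    linear_combination (M 1 0 * x k 0 ^ 2 + (M 1 1 - M 0 0) * x k 0 * x k 1 -
      M 0 1 * x k 1 ^ 2) * hd

end orbit

/-- **orbits of matrices of determinant one** -/
theorem sl2 (ε : ℝ) (hε : 0 < ε) (hε1 : ε ≤ 1) :
    ∃ κ : ℝ, 0 < κ ∧ ∃ p₀ : ℕ, ∀ p : ℕ, p₀ ≤ p → ∀ [Fact p.Prime],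
    ∀ M : Matrix (Fin 2) (Fin 2) (ZMod p), M.det = 1 → M.trace ^ 2 ≠ 4 →
    ∀ x : ℕ → Fin 2 → ZMod p, (∀ k, x (k + 1) = M *ᵥ x k) → x 0 0 * x 1 1 ≠ x 0 1 * x 1 0 →
    ∀ A N : Fin 2 → ℕ, (∀ j, A j + N j ≤ p) → (∀ j, (p : ℝ) ^ ε ≤ N j) →
      (p : ℝ) ^ (10 + ε) ≤ (∏ j, (N j : ℝ)) ^ 4 * (orderOf M : ℝ) ^ 3 →
      ∃ G : Finset ℕ,
        (∏ j, (N j : ℝ)) * orderOf M * (p : ℝ) ^ (-2 - ε) ≤ G.card ∧
        ∀ k ∈ G, k < orderOf M ∧ ∀ j, (A j ≤ (x k j).val ∧ (x k j).val < A j + N j) ∧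
          ∀ q : ℕ, q.Prime → κ * ff p < |(q : ℝ) - (x k j).val| := by
  classical
  obtain ⟨κ, hκ, p₀, h⟩ := genE (Fin 2) (ε / 8) (by positivity) (by linarith)
  obtain ⟨p₁, hp₁⟩ : ∃ p₁ : ℕ, ∀ p : ℕ, p₁ ≤ p → 3 ≤ (p : ℝ) ^ (ε / 2) :=
    eventually_atTop.1 (((tendsto_rpow_atTop (show 0 < ε / 2 by positivity)).comp
      tendsto_natCast_atTop_atTop).eventually_ge_atTop 3)
  refine ⟨κ, hκ, max p₀ p₁, ?_⟩
  intro p hp0 _ M hd htr x hx h01 A N hAN hN hW
  have hpp : p.Prime := Fact.out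
  have hp : (0 : ℝ) < p := by exact_mod_cast hpp.pos
  have hp1 : (1 : ℝ) ≤ p := by exact_mod_cast hpp.one_lt.le
  have hmono : ∀ x y : ℝ, x ≤ y → (p : ℝ) ^ x ≤ (p : ℝ) ^ y := fun x y h =>
    Real.rpow_le_rpow_of_exponent_le hp1 h
  have hD := disc_ne hd htr
  have hc : x 0 0 * x 1 1 - x 0 1 * x 1 0 ≠ 0 := sub_ne_zero.2 h01
  have ht : 0 < orderOf M := by
    rcases Nat.eq_zero_or_pos (orderOf M) with h1 | h1
    · rw [h1, Nat.cast_zero] at hW
      have h2 : (0 : ℝ) < (p : ℝ) ^ (10 + ε) := by positivity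
      norm_num at hW
      linarith
    · exact h1
  have hxne : ∀ k, x k ≠ 0 := by
    intro k h0
    apply hc
    rw [← q_x hd hx k, h0]
    simp
  set t : ℕ := orderOf M with htd
  have hpowdet : ∀ k, (M ^ k).det = 1 := fun k => by rw [det_pow, hd, one_pow]
  have hcomm : ∀ k, M * M ^ k = M ^ k * M := fun k => by rw [← pow_succ', ← pow_succ]
  have hsmall : ∀ k, k < t → M ^ k = 1 → k = 0 := by
    intro k hk h1
    have h2 := orderOf_dvd_of_pow_eq_one h1
    rcases Nat.eq_zero_or_pos k with h3 | h3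
    · exact h3
    · have := Nat.le_of_dvd h3 h2
      omega
  have hinjx : Set.InjOn x (range t : Finset ℕ) := by
    intro i hi j hj hij
    wlog hle : i ≤ j generalizing i j
    · exact (this hj hi hij.symm (by omega)).symm
    rw [mem_coe, mem_range] at hi hj
    obtain ⟨m, rfl⟩ := Nat.exists_eq_add_of_le hle
    have h1 := pow_x hx i m
    rw [← hij] at h1
    have h2 := one_of_col (hpowdet m) (hcomm m) hD (hxne i) h1.symm
    have := hsmall m (by omega) h2
    omega
  set Ω : Finset (Fin 2 → ZMod p) := (range t).image x with hΩ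
  have hcard : Ω.card = t := by rw [hΩ, card_image_of_injOn hinjx, card_range]
  have hmaps : Set.MapsTo (fun v => M *ᵥ v) Ω Ω := by
    intro v hv
    rw [mem_coe, hΩ, mem_image] at hv
    obtain ⟨k, hk, rfl⟩ := hv
    rw [mem_range] at hk
    simp only
    rw [← hx k, mem_coe, hΩ, mem_image]
    rcases Nat.lt_or_ge (k + 1) t with h1 | h1
    · exact ⟨k + 1, mem_range.2 h1, rfl⟩
    · have h2 : k + 1 = t := by omega
      refine ⟨0, mem_range.2 ht, ?_⟩
      have h3 := pow_x hx 0 t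
      rw [zero_add, htd, pow_orderOf_eq_one, one_mulVec, ← htd] at h3
      rw [h2, h3]
  have hinj : Function.Injective (fun v : Fin 2 → ZMod p => M *ᵥ v) := by
    intro v w hvw
    have h1 : M *ᵥ v = M *ᵥ w := hvw
    have h2 : M ^ (t - 1) * M = 1 := by
      rw [← pow_succ, Nat.sub_add_cancel ht, htd, pow_orderOf_eq_one]
    rw [← one_mulVec v, ← one_mulVec w, ← h2, ← mulVec_mulVec, ← mulVec_mulVec, h1]
  have hen : (energy Ω : ℝ) ≤ 3 * (t : ℝ) ^ 2 := by
    have h1 := energy_le Ω hD hc (by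
      intro u hu
      rw [hΩ, mem_image] at hu
      obtain ⟨k, -, rfl⟩ := hu
      exact q_x hd hx k)
    rw [hcard] at h1
    exact_mod_cast h1
  have ht0 : (0 : ℝ) < t := by exact_mod_cast ht
  obtain ⟨G, hG1, hG2⟩ := h p ((le_max_left _ _).trans hp0) Ω t (3 * (t : ℝ) ^ 2) ht0 hen (by
      intro h0 hh0
      refine ⟨(range t).image (fun k => h0 ᵥ* M ^ k), ?_, ?_⟩
      · intro g hg
        obtain ⟨k, -, rfl⟩ := mem_image.1 hg
        induction k with
        | zero => rw [pow_zero, vecMul_one]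
        | succ k ih =>
          rw [← ih (by
            by_cases hk : k < t
            · exact mem_image_of_mem _ (mem_range.2 hk)
            · have h3 : M ^ k = M ^ (k % t) := by rw [htd, pow_mod_orderOf]
              rw [h3]
              exact mem_image_of_mem _ (mem_range.2 (Nat.mod_lt _ ht)))]
          symm
          refine inv_norm Ω (fun v => M *ᵥ v) hmaps hinj.injOn (h0 ᵥ* M ^ k) (h0 ᵥ* M ^ (k + 1))
            0 fun v => ?_
          rw [dotProduct_mulVec, vecMul_vecMul, ← pow_succ, add_zero]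
      · rw [card_image_of_injOn, card_range]
        intro i hi j hj hij
        wlog hle : i ≤ j generalizing i j
        · exact (this hj hi hij.symm (by omega)).symm
        rw [mem_coe, mem_range] at hi hj
        obtain ⟨m, rfl⟩ := Nat.exists_eq_add_of_le hle
        replace hij : h0 ᵥ* M ^ i = h0 ᵥ* M ^ (i + m) := hij
        rw [pow_add, ← vecMul_vecMul] at hij
        have hne : h0 ᵥ* M ^ i ≠ 0 := by
          intro h4
          apply hh0
          have h5 : M ^ i * M ^ (t - i) = 1 := by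
            rw [← pow_add, show i + (t - i) = t by omega, htd, pow_orderOf_eq_one]
          rw [← vecMul_one h0, ← h5, ← vecMul_vecMul, h4, zero_vecMul]
        have h2 := one_of_row (hpowdet m) (hcomm m) hD hne hij.symm
        have := hsmall m (by omega) h2
        omega) A N hAN (fun j => (hmono _ _ (by linarith)).trans (hN j)) (by
      rw [Fintype.card_fin, hcard]
      have h1 : (p : ℝ) ^ (5 * ((2 : ℕ) : ℝ) + 4 * (ε / 8)) * 3 ≤ (p : ℝ) ^ (10 + ε) := by
        calc (p : ℝ) ^ (5 * ((2 : ℕ) : ℝ) + 4 * (ε / 8)) * 3 ≤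
            (p : ℝ) ^ (5 * ((2 : ℕ) : ℝ) + 4 * (ε / 8)) * (p : ℝ) ^ (ε / 2) :=
              mul_le_mul_of_nonneg_left (hp₁ p ((le_max_right _ _).trans hp0)) (by positivity)
          _ = (p : ℝ) ^ (10 + ε) := by
              rw [← Real.rpow_add hp]
              congr 1
              push_cast
              ring
      calc (p : ℝ) ^ (5 * ((2 : ℕ) : ℝ) + 4 * (ε / 8)) * (3 * (t : ℝ) ^ 2) =
          (p : ℝ) ^ (5 * ((2 : ℕ) : ℝ) + 4 * (ε / 8)) * 3 * (t : ℝ) ^ 2 := by ring
        _ ≤ (∏ j, (N j : ℝ)) ^ 4 * (t : ℝ) ^ 3 * (t : ℝ) ^ 2 :=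
            mul_le_mul_of_nonneg_right (h1.trans hW) (by positivity)
        _ = _ := by ring)
  rw [Fintype.card_fin, hcard] at hG1
  refine ⟨(range t).filter (fun k => (fun j => (x k j).val) ∈ G), ?_, ?_⟩
  · refine le_trans ?_ (hG1.trans ?_)
    · refine mul_le_mul_of_nonneg_left (hmono _ _ ?_) (by positivity)
      push_cast
      linarith
    · have hsub : G ⊆ ((range t).filter (fun k => (fun j => (x k j).val) ∈ G)).image
          (fun k => fun j => (x k j).val) := by
        intro z hz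
        obtain ⟨g1, g2, -⟩ := hG2 z hz
        rw [hΩ, mem_image] at g2
        obtain ⟨k, hk, hkz⟩ := g2
        have h1 : (fun j => (x k j).val) = z := by
          funext j
          have h3 : x k j = (z j : ZMod p) := congrFun hkz j
          rw [h3, ZMod.val_natCast, Nat.mod_eq_of_lt]
          have := (g1 j).2
          have := hAN j
          omega
        rw [mem_image]
        exact ⟨k, mem_filter.2 ⟨hk, by rw [h1]; exact hz⟩, h1⟩
      exact_mod_cast (card_le_card hsub).trans card_image_le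
  · intro k hk
    rw [mem_filter, mem_range] at hk
    obtain ⟨g1, -, g3⟩ := hG2 _ hk.2
    exact ⟨hk.1, fun j => ⟨g1 j, g3 j⟩⟩

end Pool.Agent.KS6_52.RG
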